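import Pool.Agent.Y504.CO.Stm

/-!
# CO-T1 (job 8945): existence of minimal limits (helper96)
-/

set_option autoImplicit false

open scoped Topology
open Filter Set Metric

universe u

namespace Pool.Agent.Y96.CO.T1

open Pool.Agent.TH80.OMS Pool.Agent.Y504.CO

section orbits

variable {X : Type u}

theorem iter_mod {f : X → X} {m : ℕ} {q : X} (hq : f^[m] q = q) (i : ℕ) :
    f^[i] q = f^[i % m] q := by
  have h : Function.IsPeriodicPt f m q := hq
  exact (h.iterate_mod_apply i).symm

theorem orb_finite {f : X → X} {q : X} (hq : q ∈ Per f) : (orb f q).Finite := by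
  obtain ⟨m, hm, hq⟩ := hq
  refine ((finite_Iio m).image fun i => f^[i] q).subset ?_
  rintro _ ⟨i, rfl⟩
  exact ⟨i % m, mem_Iio.2 (Nat.mod_lt _ (by omega)), (iter_mod hq i).symm⟩

theorem orb_per {f : X → X} {q : X} (hq : q ∈ Per f) : orb f q ⊆ Per f := by
  obtain ⟨m, hm, hq⟩ := hq
  rintro _ ⟨i, rfl⟩
  refine ⟨m, hm, ?_⟩
  show f^[m] (f^[i] q) = f^[i] q
  rw [← Function.iterate_add_apply, add_comm, Function.iterate_add_apply, hq]

theorem orb_maps {f : X → X} {q : X} : ∀ x ∈ orb f q, f x ∈ orb f q := by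
  rintro _ ⟨i, rfl⟩
  exact ⟨i + 1, Function.iterate_succ_apply' f i q⟩

theorem orb_image {f : X → X} {q : X} (hq : q ∈ Per f) : f '' orb f q = orb f q := by
  apply Subset.antisymm
  · rintro _ ⟨x, hx, rfl⟩
    exact orb_maps x hx
  · obtain ⟨m, hm, hq⟩ := hq
    rintro _ ⟨i, rfl⟩
    rcases i with _ | i
    · refine ⟨f^[m - 1] q, ⟨m - 1, rfl⟩, ?_⟩
      rw [← Function.iterate_succ_apply' f, show (m - 1).succ = m by omega, hq]
      rfl
    · exact ⟨f^[i] q, ⟨i, rfl⟩, (Function.iterate_succ_apply' f i q).symm⟩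

theorem iter_image {f : X → X} {H : Set X} (h : f '' H = H) (i : ℕ) : f^[i] '' H = H := by
  induction i with
  | zero => rw [Function.iterate_zero, image_id]
  | succ i ih => rw [Function.iterate_succ', image_comp, ih, h]

end orbits

variable {X : Type u} [MetricSpace X]

/-- invariant sets near an isolated periodic orbit -/
theorem sub_orb (f : X ≃ₜ X) {p : X} {O H : Set X}
    (hO : ∀ x : ℤ → X, (∀ i, f (x i) = x (i + 1)) → (∀ i, x i ∈ closure O) → x 0 ∈ orb f p)
    (hH : f '' H = H) (hHO : H ⊆ O) : H ⊆ orb f p := by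
  intro y hy
  let F : Equiv.Perm X := f.toEquiv
  have hF : ∀ z, F z = f z := fun z => rfl
  have hmem : ∀ i : ℤ, (F ^ i) y ∈ H := by
    intro i
    induction i using Int.induction_on with
    | zero => simpa using hy
    | succ i ih =>
      have e : (F ^ ((i : ℤ) + 1)) y = f ((F ^ (i : ℤ)) y) := by
        rw [add_comm, zpow_add, zpow_one]
        rfl
      rw [e, ← hH]
      exact mem_image_of_mem _ ih
    | pred i ih =>
      have e : f ((F ^ (-(i : ℤ) - 1)) y) = (F ^ (-(i : ℤ))) y := by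
        have h1 : F ^ (-(i : ℤ)) = F * F ^ (-(i : ℤ) - 1) := by
          conv_lhs => rw [show -(i : ℤ) = 1 + (-(i : ℤ) - 1) by ring, zpow_add, zpow_one]
        rw [h1]
        rfl
      have h2 : (F ^ (-(i : ℤ))) y ∈ f '' H := by
        rw [hH]
        exact ih
      obtain ⟨z, hz, hfz⟩ := h2
      have h3 : (F ^ (-(i : ℤ) - 1)) y = z := f.injective (e.trans hfz.symm)
      rw [h3]
      exact hz
  have h0 := hO (fun i => (F ^ i) y) (fun i => by
    show f ((F ^ i) y) = (F ^ (i + 1)) y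
    rw [add_comm i 1, zpow_add, zpow_one]
    rfl) (fun i => subset_closure (hHO (hmem i)))
  have h1 : (F ^ (0 : ℤ)) y = y := by rw [zpow_zero]; rfl
  rw [← h1]
  exact h0

variable [CompactSpace X]

/-- limits which consist of periodic points -/
theorem lim_per (h0 : S_T0.{u}) (f : X ≃ₜ X) (hΩ : (Omega f).Countable) {H : Set X}
    (hH : IsLim f H) (hP : H ⊆ Per f) : ∃ q ∈ Per f, H = orb f q := by
  have hb : f '' H = H := (h0 X f).2.1 H hH
  have hc : H.Countable := (h0 X f).2.2.1 H hH hΩ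
  have hlim := hH
  obtain ⟨hcl, hne, -⟩ := hH
  haveI : CompactSpace H := isCompact_iff_compactSpace.1 hcl.isCompact
  haveI : Countable H := countable_coe_iff.2 hc
  haveI : Nonempty H := hne.to_subtype
  obtain ⟨i, hi⟩ := nonempty_interior_of_iUnion_of_closed (X := H) (f := fun i : H => {i})
    (fun i => isClosed_singleton) (by ext; simp)
  obtain ⟨w, hw⟩ := hi
  have hwi : w = i := by simpa using interior_subset hw
  rw [hwi] at hw
  have hopen : IsOpen ({i} : Set H) := by
    rw [← interior_eq_iff_isOpen]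
    refine Subset.antisymm interior_subset ?_
    intro z hz
    rw [mem_singleton_iff] at hz
    rw [hz]
    exact hw
  obtain ⟨O, hO, hOi⟩ := isOpen_induced_iff.1 hopen
  set q : X := i.1 with hq
  have hqH : q ∈ H := i.2
  have hqO : q ∈ O := by
    have : i ∈ (Subtype.val ⁻¹' O : Set H) := by rw [hOi]; rfl
    exact this
  have hOq : ∀ z ∈ H, z ∈ O → z = q := by
    intro z hz hzO
    have : (⟨z, hz⟩ : H) ∈ (Subtype.val ⁻¹' O : Set H) := hzO
    rw [hOi] at this
    exact congrArg Subtype.val this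
  refine ⟨q, hP hqH, ?_⟩
  have hsub : orb f q ⊆ H := by
    rintro _ ⟨k, rfl⟩
    have h1 := iter_image hb k
    show f^[k] q ∈ H
    rw [← h1]
    exact mem_image_of_mem _ hqH
  have hfinj : ∀ k : ℕ, Function.Injective (f^[k]) := fun k => f.injective.iterate k
  have hopenk : ∀ k : ℕ, IsOpen (f^[k] '' O) := by
    intro k
    induction k with
    | zero => simpa using hO
    | succ k ih =>
      rw [Function.iterate_succ', image_comp]
      exact f.isOpenMap _ ih
  have hint : H \ orb f q = H \ ⋃ k : ℕ, f^[k] '' O := by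
    ext z
    constructor
    · rintro ⟨hz, hzq⟩
      refine ⟨hz, fun hzU => hzq ?_⟩
      obtain ⟨k, hk⟩ := mem_iUnion.1 hzU
      obtain ⟨y, hy, hyz⟩ := hk
      have hz' : z ∈ f^[k] '' H := by rw [iter_image hb k]; exact hz
      obtain ⟨y', hy', hyz'⟩ := hz'
      have e : y = y' := hfinj k (hyz.trans hyz'.symm)
      rw [← e] at hy'
      rw [hOq y hy' hy] at hyz
      exact ⟨k, hyz⟩
    · rintro ⟨hz, hzU⟩
      refine ⟨hz, fun hzq => hzU ?_⟩
      obtain ⟨k, rfl⟩ := hzq
      exact mem_iUnion.2 ⟨k, mem_image_of_mem _ hqO⟩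
  have hQc : IsClosed (H \ orb f q) := by
    rw [hint]
    exact hcl.inter (isOpen_iUnion hopenk).isClosed_compl
  have hQm : ∀ x ∈ H \ orb f q, f x ∈ H \ orb f q := by
    rintro x ⟨hx, hxq⟩
    refine ⟨by rw [← hb]; exact mem_image_of_mem _ hx, fun hfx => hxq ?_⟩
    rw [← orb_image (hP hqH)] at hfx
    obtain ⟨y, hy, hyx⟩ := hfx
    rw [← f.injective hyx]
    exact hy
  have hQ := (h0 X f).2.2.2 H (orb f q) (H \ orb f q) hlim (orb_finite (hP hqH)).isClosed hQc
    (union_diff_cancel hsub) disjoint_sdiff_right orb_maps hQm ⟨q, ⟨0, rfl⟩⟩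
  exact Subset.antisymm (diff_eq_empty.1 hQ) hsub

/-- the segment property passes to a smaller set nearby -/
theorem seg_of_near {f : X → X} {H K : Set X} {ε : ℝ} {p : X} {n : ℕ} (hKH : K ⊆ H)
    (hth : H ⊆ thickening (ε / 2) K) (hs : Seg f H (ε / 2) p n) : Seg f K ε p n := by
  have hε : 0 < ε := by
    have h1 := hs.ends
    have h2 : 0 ≤ dist (f^[n] p) p := dist_nonneg
    linarith
  refine ⟨hs.n1, by have := hs.ends; linarith, ?_, ?_⟩
  · intro i hi
    obtain ⟨y, hy, hd⟩ := hs.near i hi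
    obtain ⟨z, hz, hyz⟩ := mem_thickening_iff.1 (hth hy)
    refine ⟨z, hz, ?_⟩
    have := dist_triangle (f^[i] p) y z
    linarith
  · intro y hy
    obtain ⟨i, hi, hd⟩ := hs.dense y (hKH hy)
    exact ⟨i, hi, by linarith⟩

theorem main (h0 : S_T0.{u}) : S_T1.{u} := by
  intro X _ _ f hΩ hiso hnf
  let 𝒦 : Set (Set X) := {H | IsLim f H ∧ ¬ H ⊆ Per f}
  have hb : ∀ H, IsLim f H → f '' H = H := (h0 X f).2.1
  -- chains
  have hchain : ∀ c ⊆ 𝒦, IsChain (· ⊆ ·) c → c.Nonempty → ∃ lb ∈ 𝒦, ∀ s ∈ c, lb ⊆ s := by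
    intro c hc hch hne
    haveI : Nonempty c := hne.to_subtype
    have hdir : Directed (· ⊇ ·) (fun s : c => (s : Set X)) := by
      intro a b
      rcases hch.total a.2 b.2 with h | h
      · exact ⟨a, subset_rfl, h⟩
      · exact ⟨b, h, subset_rfl⟩
    have hcl : ∀ s : c, IsClosed (s : Set X) := fun s => (hc s.2).1.1
    have hnhds : ∀ U : Set X, IsOpen U → ⋂₀ c ⊆ U → ∃ H ∈ c, H ⊆ U := by
      intro U hU hKU
      obtain ⟨s, hs⟩ := exists_subset_nhds_of_compactSpace hdir hcl (U := U) (fun x hx =>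
        hU.mem_nhds (hKU (by rw [sInter_eq_iInter]; exact hx)))
      exact ⟨s, s.2, hs⟩
    have hKc : IsClosed (⋂₀ c) := isClosed_sInter fun s hs => (hc hs).1.1
    have hKn : (⋂₀ c).Nonempty := by
      by_contra h
      rw [not_nonempty_iff_eq_empty] at h
      obtain ⟨H, hH, hH'⟩ := hnhds ∅ isOpen_empty (by rw [h])
      obtain ⟨x, hx⟩ := (hc hH).1.2.1
      exact hH' hx
    have hKlim : IsLim f (⋂₀ c) := by
      refine ⟨hKc, hKn, fun ε hε => ?_⟩
      obtain ⟨H, hH, hHU⟩ := hnhds (thickening (ε / 2) (⋂₀ c)) isOpen_thickening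
        (self_subset_thickening (by linarith) _)
      obtain ⟨p, n, hs⟩ := (hc hH).1.2.2 (ε / 2) (by linarith)
      exact ⟨p, n, seg_of_near (sInter_subset_of_mem hH) hHU hs⟩
    refine ⟨⋂₀ c, ⟨hKlim, fun hper => ?_⟩, fun s hs => sInter_subset_of_mem hs⟩
    obtain ⟨q, hq, hKq⟩ := lim_per h0 f hΩ hKlim hper
    obtain ⟨O, hO, hqO, hOo⟩ := hiso q hq
    obtain ⟨H, hH, hHO⟩ := hnhds O hO (by rw [hKq]; exact hqO)
    exact (hc hH).2 ((sub_orb f hOo (hb H (hc hH).1) hHO).trans (orb_per hq))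
  -- the family is not empty
  have hne : ∃ H, H ∈ 𝒦 := by
    by_cases hA : Omega f ⊆ Per f
    · have hinf : (Per f).Infinite := by
        intro hfin
        exact hnf ⟨hfin.subset hA, hA⟩
      let e := hinf.natEmbedding
      choose n hn hper using fun k : ℕ => (e k).2
      obtain ⟨φ, H, hφ, hHc, hHn, hs⟩ := (h0 X f).1 (fun k => ((e k : Per f) : X)) n hn (by
        have : (fun k => dist (f^[n k] ((e k : Per f) : X)) ((e k : Per f) : X)) =
            fun _ => (0 : ℝ) := by
          ext k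
          rw [hper k, dist_self]
        rw [this]
        exact tendsto_const_nhds)
      have hlim : IsLim f H := by
        refine ⟨hHc, hHn, fun ε hε => ?_⟩
        obtain ⟨k, hk⟩ := (hs ε hε).exists
        exact ⟨_, _, hk⟩
      refine ⟨H, hlim, fun hHp => ?_⟩
      obtain ⟨q, hq, hHq⟩ := lim_per h0 f hΩ hlim hHp
      obtain ⟨O, hO, hqO, hOo⟩ := hiso q hq
      obtain ⟨δ, hδ, hth⟩ := hHc.isCompact.exists_thickening_subset_open hO
        (by rw [hHq]; exact hqO)
      obtain ⟨N, hN⟩ := Filter.eventually_atTop.1 (hs δ hδ)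
      have hin : ∀ k, N ≤ k → ((e (φ k) : Per f) : X) ∈ orb f q := by
        intro k hk
        have hsk := hN k hk
        have horb : orb f ((e (φ k) : Per f) : X) ⊆ O := by
          rintro _ ⟨i, rfl⟩
          apply hth
          show f^[i] ((e (φ k) : Per f) : X) ∈ _
          rw [iter_mod (hper (φ k)) i]
          obtain ⟨y, hy, hd⟩ := hsk.near (i % n (φ k))
            (Nat.mod_lt _ (by have := hn (φ k); omega)).le
          exact mem_thickening_iff.2 ⟨y, hy, hd⟩
        exact sub_orb f hOo (orb_image (e (φ k)).2) horb ⟨0, rfl⟩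
      have hinj : Function.Injective fun k => ((e (φ (k + N)) : Per f) : X) := by
        intro a b hab
        have h1 := e.injective (Subtype.ext hab)
        have h2 := hφ.injective h1
        omega
      exact (Set.infinite_of_injective_forall_mem hinj fun k => hin (k + N) (by omega))
        (orb_finite hq)
    · rw [not_subset] at hA
      obtain ⟨x, hx, hxp⟩ := hA
      have hch : ∀ k : ℕ, ∃ n : ℕ, 1 ≤ n ∧ ∃ p ∈ ball x (1 / ((k : ℝ) + 1)),
          f^[n] p ∈ ball x (1 / ((k : ℝ) + 1)) := fun k =>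
        hx _ isOpen_ball (mem_ball_self (by positivity))
      choose n hn p hp hfp using hch
      have h1k : Tendsto (fun k : ℕ => 1 / ((k : ℝ) + 1)) atTop (𝓝 0) :=
        tendsto_one_div_add_atTop_nhds_zero_nat
      have hpx : Tendsto p atTop (𝓝 x) := by
        rw [tendsto_iff_dist_tendsto_zero]
        exact squeeze_zero (fun k => dist_nonneg) (fun k => (mem_ball.1 (hp k)).le) h1k
      have hfpx : Tendsto (fun k => f^[n k] (p k)) atTop (𝓝 x) := by
        rw [tendsto_iff_dist_tendsto_zero]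
        exact squeeze_zero (fun k => dist_nonneg) (fun k => (mem_ball.1 (hfp k)).le) h1k
      have hd := hfpx.dist hpx
      rw [dist_self] at hd
      obtain ⟨φ, H, hφ, hHc, hHn, hs⟩ := (h0 X f).1 p n hn hd
      have hxH : x ∈ H := by
        rw [← hHc.closure_eq, Metric.mem_closure_iff]
        intro ε hε
        have e1 := hs (ε / 2) (by linarith)
        have e2 := (hpx.comp hφ.tendsto_atTop).eventually (ball_mem_nhds x (half_pos hε))
        obtain ⟨k, s1, s2⟩ := (e1.and e2).exists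
        obtain ⟨h, hh, hhd⟩ := s1.near 0 (Nat.zero_le _)
        refine ⟨h, hh, ?_⟩
        have hhd' : dist (p (φ k)) h < ε / 2 := hhd
        have s2' : dist (p (φ k)) x < ε / 2 := s2
        have h3 := dist_triangle_left x h (p (φ k))
        linarith
      refine ⟨H, ⟨hHc, hHn, fun ε hε => ?_⟩, fun h => hxp (h hxH)⟩
      obtain ⟨k, hk⟩ := (hs ε hε).exists
      exact ⟨_, _, hk⟩
  obtain ⟨H1, hH1⟩ := hne
  obtain ⟨m, -, hm⟩ := zorn_superset_nonempty 𝒦 hchain H1 hH1
  refine ⟨m, hm.prop.1, hm.prop.2, ?_⟩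
  intro H' hH' hlim hnp
  exact Subset.antisymm hH' (hm.le_of_le (show H' ∈ 𝒦 from ⟨hlim, hnp⟩) hH')

end Pool.Agent.Y96.CO.T1
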